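import Pool.Agent.Results.MP_bb5cc8_nt.StructuredClasses

/-!
# Covering by one residue class for each prime of `[N ^ α, N ^ β)`

Consequences, for the primes of `[N ^ α, N ^ β)`, of the results for dyadic ranges of primes in the
starting library `Pool.Agent.H170R2.PC` and in the starting file
`Pool.Agent.Results.MP_bb5cc8_nt.StructuredClasses`. For `α = 0.51`, `β = 0.52` every choice of
residues covers at least `N ^ 0.98038` integers, and every structured choice covers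
`N ^ (1 - o(1))` integers.
-/

set_option autoImplicit false

open Filter

namespace Pool.Agent.Results.MP_4d2d66_nt.WideRange

open Pool.Agent.H170R2.PC Pool.Agent.Results.MP_bb5cc8_nt.StructuredClasses

/-- The number of integers `1 ≤ n ≤ N` with `n ≡ a p (mod p)` for some prime `p` with
`N ^ α ≤ p < N ^ β`. -/
noncomputable def covered (α β : ℝ) (N : ℕ) (a : ℕ → ℤ) : ℕ :=
  Set.ncard {n : ℕ | 1 ≤ n ∧ n ≤ N ∧ ∃ p : ℕ, p.Prime ∧ (N : ℝ) ^ α ≤ (p : ℝ) ∧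
    (p : ℝ) < (N : ℝ) ^ β ∧ (p : ℤ) ∣ (n : ℤ) - a p}

/-- The dyadic range `[N ^ γ, 2 N ^ γ)` lies in `[N ^ α, N ^ β)` for large `N`, if
`α ≤ γ < β`. -/
theorem coveredCount_le {α β γ : ℝ} (h0 : α ≤ γ) (h : γ < β) :
    ∀ᶠ N : ℕ in atTop, ∀ a : ℕ → ℤ,
      coveredCount γ N (fun p => ((a p : ℤ) : ZMod p)) ≤ covered α β N a := by
  have h1 : ∀ᶠ N : ℕ in atTop, (2 : ℝ) ≤ (N : ℝ) ^ (β - γ) :=
    ((tendsto_rpow_atTop (by linarith : (0 : ℝ) < β - γ)).comp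
      tendsto_natCast_atTop_atTop).eventually_ge_atTop 2
  filter_upwards [h1, eventually_ge_atTop 1] with N hN hN1 a
  refine Set.ncard_le_ncard ?_ ((Set.finite_Icc 1 N).subset fun n hn => ⟨hn.1, hn.2.1⟩)
  rintro n ⟨hn1, hn2, p, ⟨hp, hp1, hp2⟩, hpa⟩
  have hN1' : (1 : ℝ) ≤ N := by exact_mod_cast hN1
  refine ⟨hn1, hn2, p, hp, (Real.rpow_le_rpow_of_exponent_le hN1' h0).trans hp1, ?_, ?_⟩
  · refine hp2.trans_le ?_
    have hN0 : (0 : ℝ) < N := by linarith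
    have e : (N : ℝ) ^ β = (N : ℝ) ^ (β - γ) * (N : ℝ) ^ γ := by
      rw [← Real.rpow_add hN0]
      congr 1
      ring
    rw [e]
    exact mul_le_mul_of_nonneg_right hN (by positivity)
  · have h2 : (((n : ℤ) - a p : ℤ) : ZMod p) = 0 := by
      push_cast
      rw [hpa, sub_self]
    exact (ZMod.intCast_zmod_eq_zero_iff_dvd _ _).1 h2

theorem general {α β : ℝ} (hα : 1 / 2 < α) (hα1 : α < 1) (h : α < β) {k : ℕ} (hk : 1 ≤ k)
    {c : ℝ} (hc : c < min ((3 - 2 * α - (1 - α) / k) / 2)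
      (2 - 2 * α + (2 * α - 1) / (2 * k))) :
    ∃ N₀ : ℕ, ∀ N : ℕ, N₀ ≤ N → ∀ a : ℕ → ℤ, (N : ℝ) ^ c ≤ (covered α β N a : ℝ) := by
  obtain ⟨N₀, hN₀⟩ := exp_bush hα hα1 hk _ (sub_pos.2 hc)
  obtain ⟨N₁, hN₁⟩ := eventually_atTop.1 (coveredCount_le le_rfl h)
  refine ⟨max N₀ N₁, fun N hN a => ?_⟩
  have h1 := hN₀ N ((le_max_left _ _).trans hN) fun p => ((a p : ℤ) : ZMod p)
  rw [sub_sub_cancel] at h1
  refine h1.trans ?_
  exact_mod_cast hN₁ N ((le_max_right _ _).trans hN) a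

theorem structured {α β γ δ ε : ℝ} (hα : α ≤ γ) (hβ : γ < β) (h0 : 0 < γ) (h1 : γ < 1)
    (hδ : 0 ≤ δ) (hδγ : 2 * δ < 1 - γ) (hε : 0 < ε) :
    ∃ N₀ : ℕ, ∀ N : ℕ, N₀ ≤ N → ∀ a : ℕ → ℤ,
      NearAlgebraic γ N δ (fun p => ((a p : ℤ) : ZMod p)) ∨
        NearAffine γ N δ (fun p => ((a p : ℤ) : ZMod p)) →
      (N : ℝ) ^ (1 - 3 * δ - ε) ≤ (covered α β N a : ℝ) := by
  obtain ⟨N₀, hN₀⟩ :=
    Pool.Agent.Results.MP_bb5cc8_nt.StructuredClasses.result γ δ ε h0 h1 hδ hδγ hε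
  obtain ⟨N₁, hN₁⟩ := eventually_atTop.1 (coveredCount_le hα hβ)
  refine ⟨max N₀ N₁, fun N hN a ha => ?_⟩
  have h1 := hN₀ N ((le_max_left _ _).trans hN) (fun p => ((a p : ℤ) : ZMod p)) ha
  refine h1.trans ?_
  exact_mod_cast hN₁ N ((le_max_right _ _).trans hN) a

/-- **Main theorem.** (1) For all large `N` and every choice of residues at least `N ^ 0.98038`
integers of `[1, N]` are covered by the classes modulo the primes of `[N ^ 0.51, N ^ 0.52)`.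
(2) Let `1 / 2 < α < 1` and `α < β`, let `k ≥ 1`, and let `c` be smaller than
`(3 - 2 α - (1 - α) / k) / 2` and `2 - 2 α + (2 α - 1) / (2 k)`. For all large `N` and every choice
of residues at least `N ^ c` integers of `[1, N]` are covered by the classes modulo the primes of
`[N ^ α, N ^ β)`.
(3) Let `0 < γ < 1`, `α ≤ γ < β`, `0 ≤ 2 δ < 1 - γ` and `ε > 0`. For all large `N` and every choice
of residues which is near-algebraic or near-affine on the primes of `[N ^ γ, 2 N ^ γ)` (with error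
`N ^ δ`, on a proportion `N ^ (-δ)` of these primes) at least `N ^ (1 - 3 δ - ε)` integers of
`[1, N]` are covered by the classes modulo the primes of `[N ^ α, N ^ β)`. -/
theorem result :
    (∃ N₀ : ℕ, ∀ N : ℕ, N₀ ≤ N → ∀ a : ℕ → ℤ,
      (N : ℝ) ^ (98038 / 100000 : ℝ) ≤ (covered (51 / 100) (52 / 100) N a : ℝ)) ∧
    (∀ (α β : ℝ), 1 / 2 < α → α < 1 → α < β → ∀ k : ℕ, 1 ≤ k → ∀ c : ℝ,
      c < (3 - 2 * α - (1 - α) / k) / 2 → c < 2 - 2 * α + (2 * α - 1) / (2 * k) →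
      ∃ N₀ : ℕ, ∀ N : ℕ, N₀ ≤ N → ∀ a : ℕ → ℤ, (N : ℝ) ^ c ≤ (covered α β N a : ℝ)) ∧
    (∀ (α β γ δ ε : ℝ), 0 < γ → γ < 1 → α ≤ γ → γ < β → 0 ≤ δ → 2 * δ < 1 - γ → 0 < ε →
      ∃ N₀ : ℕ, ∀ N : ℕ, N₀ ≤ N → ∀ a : ℕ → ℤ,
        NearAlgebraic γ N δ (fun p => ((a p : ℤ) : ZMod p)) ∨
          NearAffine γ N δ (fun p => ((a p : ℤ) : ZMod p)) →
        (N : ℝ) ^ (1 - 3 * δ - ε) ≤ (covered α β N a : ℝ)) := by
  refine ⟨?_, fun α β h1 h2 h3 k hk c hc1 hc2 => general h1 h2 h3 hk (lt_min hc1 hc2),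
    fun α β γ δ ε h1 h2 h3 h4 h5 h6 h7 => structured h3 h4 h1 h2 h5 h6 h7⟩
  refine general (α := 51 / 100) (β := 52 / 100) (by norm_num) (by norm_num) (by norm_num)
    (k := 26) (by norm_num) (lt_min ?_ ?_)
  · norm_num
  · norm_num

end Pool.Agent.Results.MP_4d2d66_nt.WideRange
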